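import Mathlib

/-!
# Exact membership in the theta body: definitions
-/

open Turing

namespace Pool.Agent.Helper92.SU

/-! ### Computability in polynomial time -/

/-- Types whose elements are coded by strings of Booleans. -/
class Coded (α : Type) where
  /-- the code -/
  code : α → List Bool

export Coded (code)

/-- The code of a pair of strings: the symbols of the first string, each preceded by `true`, then
`false`, then the second string. -/
def pairCode (u v : List Bool) : List Bool := u.flatMap (fun a => [true, a]) ++ false :: v

/-- A Boolean is coded by itself. -/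
instance instCodedBool : Coded Bool := ⟨fun b => [b]⟩

/-- A natural number that is a size or the index of a vertex is coded in unary. (Other numbers are
represented by their binary digits, see `bval` below.) -/
instance instCodedNat : Coded ℕ := ⟨fun n => List.replicate n true⟩

/-- The code of a pair. -/
instance instCodedProd {α β : Type} [Coded α] [Coded β] : Coded (α × β) :=
  ⟨fun x => pairCode (code x.1) (code x.2)⟩

/-- The code of a list: `pairCode (code a₁) (pairCode (code a₂) (… []))`. -/
instance instCodedList {α : Type} [Coded α] : Coded (List α) :=
  ⟨fun l => l.foldr (fun a s => pairCode (code a) s) []⟩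

/-- The function `f` is computable in polynomial time by a Turing machine. -/
def PolyTime {α β : Type} [Coded α] [Coded β] (f : α → β) : Prop :=
  Nonempty (TM2ComputableInPolyTime (code : α → List Bool) (code : β → List Bool) f)

/-- A decision problem: instances with codes, and the set of the instances with the answer yes. -/
structure Problem where
  /-- the instances -/
  Inst : Type
  /-- the codes of the instances -/
  coded : Coded Inst
  /-- the instances with the answer yes -/
  yes : Set Inst

attribute [instance] Problem.coded

/-- Polynomial-time many-one reducibility. -/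
def Reduces (A B : Problem) : Prop :=
  ∃ f : A.Inst → B.Inst, PolyTime f ∧ ∀ x, x ∈ A.yes ↔ f x ∈ B.yes

/-- The problem can be decided in polynomial time. -/
def InP (A : Problem) : Prop := ∃ f : A.Inst → Bool, PolyTime f ∧ ∀ x, x ∈ A.yes ↔ f x = true

/-! ### Numbers in binary -/

/-- The natural number with the given binary digits, least significant digit first. -/
def bval (l : List Bool) : ℕ := l.foldr (fun b n => (bif b then 1 else 0) + 2 * n) 0

/-- Integers in binary: a sign (`true` for nonnegative) and the digits of the absolute value. -/
abbrev BInt : Type := Bool × List Bool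

/-- The integer with a given binary representation. -/
def ival (z : BInt) : ℤ := bif z.1 then (bval z.2 : ℤ) else - (bval z.2 : ℤ)

/-! ### The theta body -/

/-- The theta body of a graph. The index `none` stands for the additional row `0`. -/
def TH {V : Type} (G : SimpleGraph V) : Set (V → ℝ) :=
  {x | ∃ Y : Matrix (Option V) (Option V) ℝ, Y.PosSemidef ∧ Y none none = 1 ∧
    (∀ i, Y none (some i) = x i ∧ Y (some i) (some i) = x i) ∧
    ∀ i j, G.Adj i j → Y (some i) (some j) = 0}

/-- The graph on `Fin n` whose edges are given by a list of pairs of vertices. -/
def graphOf (n : ℕ) (E : List (ℕ × ℕ)) : SimpleGraph (Fin n) where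
  Adj i j := i ≠ j ∧ (((i : ℕ), (j : ℕ)) ∈ E ∨ ((j : ℕ), (i : ℕ)) ∈ E)
  symm := ⟨fun _ _ h => ⟨h.1.symm, h.2.symm⟩⟩
  loopless := ⟨fun _ h => h.1 rfl⟩

/-- The rational vector with the given numerators and denominators. -/
noncomputable def ratVec (x : List (BInt × List Bool)) (i : Fin x.length) : ℝ :=
  (ival (x.get i).1 : ℝ) / (bval (x.get i).2 : ℝ)

/-- **Exact membership in the theta body.** An instance consists of the list of the numerators and
denominators of the coordinates of a rational vector `x`, in binary, and of the list of the edges
of the graph `G` (its vertices are the indices of the coordinates). Question: are the denominators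
nonzero and is `x ∈ TH(G)`? -/
def THMem : Problem :=
  ⟨List (BInt × List Bool) × List (ℕ × ℕ), instCodedProd,
    {I | (∀ z ∈ I.1, bval z.2 ≠ 0) ∧ ratVec I.1 ∈ TH (graphOf I.1.length I.2)}⟩

/-- The same problem for the single vector `(1/8, …, 1/8)`: an instance is the number of vertices
with the list of the edges. -/
def TH8 : Problem :=
  ⟨ℕ × List (ℕ × ℕ), instCodedProd, {I | (fun _ => 1 / 8) ∈ TH (graphOf I.1 I.2)}⟩

/-- Real unit vectors `v i`, one for each vertex, with inner product exactly `-1/7` for adjacent
vertices. -/
def Colours {n m : ℕ} (G : SimpleGraph (Fin n)) (v : Fin n → Fin m → ℝ) : Prop :=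
  (∀ i, v i ⬝ᵥ v i = 1) ∧ ∀ i j, G.Adj i j → v i ⬝ᵥ v j = - 1 / 7

/-- **Strict vector 8-colouring.** An instance is the number of vertices with the list of the edges.
Question: are there real unit vectors, one for each vertex, with inner product exactly `-1/7` for
adjacent vertices? -/
def VectorColour8 : Problem :=
  ⟨ℕ × List (ℕ × ℕ), instCodedProd,
    {I | ∃ (m : ℕ) (v : Fin I.1 → Fin m → ℝ), Colours (graphOf I.1 I.2) v}⟩

/-! ### Semidefinite feasibility -/

/-- The entry of a matrix that is given as a list of rows; missing entries are zero. -/
def entry (A : List (List BInt)) (i j : ℕ) : BInt := (A.getD i []).getD j (true, [])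

/-- `X` is positive semidefinite and `⟨A, X⟩ = b` for all pairs `(A, b)` of the list. -/
def Solves {n : ℕ} (L : List (List (List BInt) × BInt)) (X : Matrix (Fin n) (Fin n) ℝ) : Prop :=
  X.PosSemidef ∧ ∀ a ∈ L, ∑ i : Fin n, ∑ j : Fin n, (ival (entry a.1 i j) : ℝ) * X i j = ival a.2

/-- **Exact semidefinite feasibility.** An instance consists of a number `n` and a list of pairs
`(A, b)` of an integer `n × n` matrix `A` and an integer `b`, in binary. Question: is there a
positive semidefinite real `n × n` matrix `X` with `⟨A, X⟩ = b` for all these pairs? -/
def SDPFeas : Problem :=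
  ⟨ℕ × List (List (List BInt) × BInt), instCodedProd,
    {I | ∃ X : Matrix (Fin I.1) (Fin I.1) ℝ, Solves I.2 X}⟩

end Pool.Agent.Helper92.SU
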