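import Pool.Agent.Helper89.Comp
import Pool.Agent.Helper92.Theta.Extra
import Pool.Agent.Helper92.SU.Defs

/-!
# Exact membership in the theta body is equivalent to exact semidefinite feasibility
-/

open Turing
open scoped InnerProductSpace

namespace Pool.Agent.Helper92.SU

/-! ### Comparison with the definitions of the helper files -/

lemma bval_eq : bval = Theta.bval := by
  funext l
  induction l with
  | nil => rfl
  | cons b l ih =>
    rw [Theta.bval, ← ih]
    rfl

lemma ival_eq : ival = Theta.ival := by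
  funext z
  rw [ival, Theta.ival, bval_eq]

lemma entry_eq : entry = Theta.entry := by
  funext A i j
  rw [entry, Theta.entry, List.getD_eq_getElem?_getD, List.getD_eq_getElem?_getD]

lemma ratVec_eq (x : List (BInt × List Bool)) : ratVec x = fun i => Theta.xval x[i] := by
  funext i
  rw [ratVec, Theta.xval, bval_eq, ival_eq]
  rfl

lemma thmem_iff (J : List (BInt × List Bool) × List (ℕ × ℕ)) :
    J ∈ THMem.yes ↔ J ∈ Theta.THMem := by
  change ((∀ z ∈ J.1, bval z.2 ≠ 0) ∧ ratVec J.1 ∈ TH (graphOf J.1.length J.2)) ↔ _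
  rw [bval_eq, ratVec_eq]
  rfl

lemma th8_iff (I : ℕ × List (ℕ × ℕ)) : I ∈ TH8.yes ↔ I ∈ Theta.Theta8 := Iff.rfl

lemma sdp_iff (I : ℕ × List (List (List BInt) × BInt)) :
    I ∈ SDPFeas.yes ↔ I ∈ Theta.SDPFeas := by
  change (∃ X : Matrix (Fin I.1) (Fin I.1) ℝ, Solves I.2 X) ↔ _
  unfold Solves
  rw [ival_eq, entry_eq]
  rfl

lemma vec_iff {n : ℕ} (G : SimpleGraph (Fin n)) :
    (∃ (m : ℕ) (v : Fin n → EuclideanSpace ℝ (Fin m)), (∀ i, ‖v i‖ = 1) ∧
      ∀ i j, G.Adj i j → ⟪v i, v j⟫_ℝ = - 1 / 7) ↔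
    ∃ (m : ℕ) (v : Fin n → Fin m → ℝ), Colours G v := by
  have key : ∀ {m : ℕ} (x y : EuclideanSpace ℝ (Fin m)), ⟪x, y⟫_ℝ = x.ofLp ⬝ᵥ y.ofLp := by
    intro m x y
    simp only [PiLp.inner_apply, dotProduct, RCLike.inner_apply, conj_trivial]
    exact Finset.sum_congr rfl fun i _ => mul_comm _ _
  have norm1 : ∀ {m : ℕ} (x : EuclideanSpace ℝ (Fin m)), ‖x‖ = 1 ↔ x.ofLp ⬝ᵥ x.ofLp = 1 := by
    intro m x
    rw [← key, real_inner_self_eq_norm_sq]
    constructor
    · intro h
      rw [h, one_pow]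
    · intro h
      exact (pow_eq_one_iff_of_nonneg (norm_nonneg x) two_ne_zero).1 h
  constructor
  · rintro ⟨m, v, h1, h2⟩
    exact ⟨m, fun i => (v i).ofLp, fun i => (norm1 _).1 (h1 i), fun i j h => by
      rw [← key]
      exact h2 i j h⟩
  · rintro ⟨m, v, h1, h2⟩
    exact ⟨m, fun i => WithLp.toLp 2 (v i), fun i => (norm1 _).2 (h1 i), fun i j h => by
      rw [key]
      exact h2 i j h⟩

lemma colour_iff (I : ℕ × List (ℕ × ℕ)) : I ∈ VectorColour8.yes ↔ I ∈ TH8.yes :=
  (vec_iff (graphOf I.1 I.2)).symm.trans (Theta.theta8_iff_vec I.1 (graphOf I.1 I.2)).symm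

/-! ### Reductions -/

open Pool.Agent.Helper91.PolyTime in
/-- The codes agree with those of the helper files. -/
class Agree (α : Type) [Coded α] [PEnc α] : Prop where
  eq : ∀ x : α, code x = PEnc.enc x

instance : Agree Bool := ⟨fun _ => rfl⟩

instance : Agree ℕ := ⟨fun _ => rfl⟩

open Pool.Agent.Helper91.PolyTime in
instance {α β : Type} [Coded α] [PEnc α] [Agree α] [Coded β] [PEnc β] [Agree β] :
    Agree (α × β) := ⟨fun x => by
  change pairCode (code x.1) (code x.2) = pr (PEnc.enc x.1) (PEnc.enc x.2)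
  rw [Agree.eq, Agree.eq]
  rfl⟩

open Pool.Agent.Helper91.PolyTime in
instance {α : Type} [Coded α] [PEnc α] [Agree α] : Agree (List α) := ⟨fun l => by
  induction l with
  | nil => rfl
  | cons a l ih =>
    change pairCode (code a) (code l) = pr (PEnc.enc a) (PEnc.enc l)
    rw [Agree.eq a, ih]
    rfl⟩

open Pool.Agent.Helper91.PolyTime in
lemma polyTime_of_ptf {α β : Type} [Coded α] [PEnc α] [Agree α] [Coded β] [PEnc β] [Agree β]
    {f : α → β} (hf : PTF f) : PolyTime f := by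
  have h1 : (code : α → List Bool) = PEnc.enc := funext Agree.eq
  have h2 : (code : β → List Bool) = PEnc.enc := funext Agree.eq
  unfold PolyTime
  rw [h1, h2]
  refine PT.tm2 _ _ (fun b => [b]) f ?_
  have h : (fun a : α => (PEnc.enc a).flatMap (fun b => [b])) = fun a => PEnc.enc a := by
    funext a
    simp
  rw [h]
  exact hf

lemma InP.of_reduces {A B : Problem} (h : Reduces A B) (hB : InP B) : InP A := by
  obtain ⟨f, ⟨hf⟩, hfA⟩ := h
  obtain ⟨g, ⟨hg⟩, hgB⟩ := hB
  exact ⟨g ∘ f, Pool.Agent.Helper89.TM2Poly.comp hf hg, fun x => (hfA x).trans (hgB _)⟩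

lemma Reduces.trans {A B C : Problem} (h : Reduces A B) (h' : Reduces B C) : Reduces A C := by
  obtain ⟨f, ⟨hf⟩, hfA⟩ := h
  obtain ⟨g, ⟨hg⟩, hgB⟩ := h'
  exact ⟨g ∘ f, Pool.Agent.Helper89.TM2Poly.comp hf hg, fun x => (hfA x).trans (hgB _)⟩

lemma sdp_reduces : Reduces SDPFeas TH8 := by
  refine ⟨Pool.Agent.Helper92.Theta.red, ?_, fun x => ?_⟩
  · exact polyTime_of_ptf (α := ℕ × List (List (List BInt) × BInt)) (β := ℕ × List (ℕ × ℕ))
      Pool.Agent.Helper92.Theta.ptf_red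
  · exact (sdp_iff x).trans ((Pool.Agent.Helper92.Theta.red_iff x).trans (th8_iff _).symm)

lemma th8_reduces : Reduces TH8 THMem := by
  refine ⟨Pool.Agent.Helper92.Theta.toTH, ?_, fun x => ?_⟩
  · exact polyTime_of_ptf (α := ℕ × List (ℕ × ℕ))
      (β := List (BInt × List Bool) × List (ℕ × ℕ)) Pool.Agent.Helper92.Theta.ptf_toTH
  · exact (th8_iff x).trans ((Pool.Agent.Helper92.Theta.toTH_iff x).trans (thmem_iff _).symm)

lemma thmem_reduces : Reduces THMem SDPFeas := by
  refine ⟨Pool.Agent.Helper92.Theta.toSDP, ?_, fun x => ?_⟩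
  · exact polyTime_of_ptf (α := List (BInt × List Bool) × List (ℕ × ℕ))
      (β := ℕ × List (List (List BInt) × BInt)) Pool.Agent.Helper92.Theta.ptf_toSDP
  · exact (thmem_iff x).trans ((Pool.Agent.Helper92.Theta.toSDP_iff x).trans (sdp_iff _).symm)

open Pool.Agent.Helper91.PolyTime in
lemma colour_reduces : Reduces VectorColour8 TH8 := by
  refine ⟨fun x => x, ?_, colour_iff⟩
  exact polyTime_of_ptf (α := ℕ × List (ℕ × ℕ)) (β := ℕ × List (ℕ × ℕ)) PTF.id

lemma sdp_reduces_colour : Reduces SDPFeas VectorColour8 := by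
  obtain ⟨f, hf, h⟩ := sdp_reduces
  exact ⟨f, hf, fun x => (h x).trans (colour_iff (f x)).symm⟩

/-- **The main theorem.** -/
theorem main :
    (Reduces SDPFeas VectorColour8 ∧ Reduces VectorColour8 TH8 ∧ Reduces TH8 THMem ∧
      Reduces THMem SDPFeas) ∧
    (InP THMem ↔ InP SDPFeas) ∧ (InP TH8 ↔ InP SDPFeas) ∧ (InP VectorColour8 ↔ InP SDPFeas) :=
  ⟨⟨sdp_reduces_colour, colour_reduces, th8_reduces, thmem_reduces⟩,
    ⟨fun h => h.of_reduces (sdp_reduces.trans th8_reduces), fun h => h.of_reduces thmem_reduces⟩,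
    ⟨fun h => h.of_reduces sdp_reduces, fun h => h.of_reduces (th8_reduces.trans thmem_reduces)⟩,
    ⟨fun h => h.of_reduces sdp_reduces_colour,
      fun h => h.of_reduces ((colour_reduces.trans th8_reduces).trans thmem_reduces)⟩⟩

end Pool.Agent.Helper92.SU
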